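import Pool.Agent.Helper778.AN.Main

set_option autoImplicit false
set_option maxHeartbeats 4000000

namespace Pool.Agent.Results.MP_f55c5e_co.AlphaPlusN

open Polynomial Finset Pool.Agent.Helper778.AN

/-! ### Definitions -/

/-- `p` is the chromatic polynomial of the finite simple graph `G`: for every natural number `q`
its value at `q` is the number of proper colourings of `G` with `q` colours. -/
def IsChromaticPoly {m : ℕ} (G : SimpleGraph (Fin m)) (p : ℤ[X]) : Prop :=
  ∀ q : ℕ, p.eval (q : ℤ) = (Nat.card (G.Coloring (Fin q)) : ℤ)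

/-- A complex number is a chromatic root if it is a root of the chromatic polynomial of some
finite simple graph. -/
def IsChromaticRoot (z : ℂ) : Prop :=
  ∃ (m : ℕ) (G : SimpleGraph (Fin m)) (p : ℤ[X]), IsChromaticPoly G p ∧ aeval z p = 0

/-! ### The theorem -/

/-- **The `α + n` conjecture.**  For every algebraic integer `α` the number `α + n` is a
chromatic root for every sufficiently large natural number `n`. -/
theorem result :
    ∀ α : ℂ, IsIntegral ℤ α → ∃ N : ℕ, ∀ n : ℕ, N ≤ n → IsChromaticRoot (α + n) := by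
  intro α hα
  obtain ⟨f, hf, hroot⟩ := hα
  have hk : 1 ≤ f.natDegree := by
    rcases Nat.eq_zero_or_pos f.natDegree with h | h
    · exfalso
      rw [hf.natDegree_eq_zero.mp h] at hroot
      simp at hroot
    · exact h
  obtain ⟨c, d, h1, h2, h3, hR⟩ := algebra_main f.natDegree hk f hf rfl
  set k := f.natDegree with hkdef
  obtain ⟨s, nn, hn1, hn2⟩ := choose_n k hk c d h1 h2 h3
  -- base size
  set B0 := (Σ p : Fin k × Fin k, Fin (nn p.1.1 p.2.1)) with hB0
  refine ⟨((Fintype.card B0 : ℤ) - s).toNat, ?_⟩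
  intro n hn
  have hn' : (Fintype.card B0 : ℤ) - s ≤ n := by
    have := Int.self_le_toNat ((Fintype.card B0 : ℤ) - s)
    omega
  obtain ⟨e, he⟩ : ∃ e : ℕ, (n : ℤ) = (Fintype.card B0 : ℤ) - s + e :=
    ⟨((n : ℤ) - ((Fintype.card B0 : ℤ) - s)).toNat, by omega⟩
  let S : ℕ → Finset (B0 ⊕ Fin e) := fun l => univ.filter
        (fun b : (Σ p : Fin k × Fin k, Fin (nn p.1.1 p.2.1)) ⊕ Fin e =>
          ∃ x, b = Sum.inl x ∧ x.1.1.1 ≤ l ∧ l ≤ x.1.2.1)
  obtain ⟨m, G, hG⟩ := transport (cliquePath S k)
  have hcard : (Fintype.card (B0 ⊕ Fin e) : ℤ) = n + s := by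
    rw [Fintype.card_sum, Fintype.card_fin]
    push_cast
    omega
  refine ⟨m, G, (∏ i ∈ range (Fintype.card (B0 ⊕ Fin e)), (X - C (i : ℤ))) *
    f.comp (X - C (n : ℤ)), ?_, ?_⟩
  · intro q
    rw [hG q, count_formula S k q, eval_mul, eval_prod]
    congr 1
    · apply Finset.prod_congr rfl
      intro i _
      simp
    · rw [eval_comp]
      have hx : (q : ℤ) - n = ((q : ℤ) - Fintype.card (B0 ⊕ Fin e)) + s := by
        rw [hcard]; ring
      have hN : ∀ i j, i ≤ j → j < k →
          ((univ.filter (fun b : B0 ⊕ Fin e => ∀ l ∈ Icc i j, b ∈ S l)).card : ℤ) =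
          ((∑ p ∈ range (i + 1), ∑ q ∈ Ico j k, nn p q : ℕ) : ℤ) := by
        intro i j hij hj
        have := card_types k e nn i j hij hj
        exact congrArg (fun x : ℕ => (x : ℤ)) this
      rw [R_congr k _ (fun i j => (-1) ^ (j - i) * (((q : ℤ) - Fintype.card (B0 ⊕ Fin e)) +
        ((∑ p ∈ range (i + 1), ∑ q ∈ Ico j k, nn p q : ℕ) : ℤ)))
        (fun i j hij hj => by rw [hN i j hij hj])]
      rw [transform k _ ((q : ℤ) - n) s
        (fun i j => ((∑ p ∈ range (i + 1), ∑ q ∈ Ico j k, nn p q : ℕ) : ℤ)) hx]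
      have hev : eval ((q : ℤ) - n) f = R k (fun i j => if j = i then ((q : ℤ) - n) + c i
          else (-1) ^ (j - i - 1) * d i j) 0 := by
        rw [← hR, ← coe_evalRingHom, map_R]
        apply R_congr
        intro i j _ _
        by_cases hji : j = i
        · simp [hji]
        · simp [hji]
      have e2 : eval (q : ℤ) (X - C (n : ℤ)) = (q : ℤ) - n := by simp
      rw [e2, hev]
      apply R_congr
      intro i j hij hj
      by_cases hji : j = i
      · subst hji
        simp only [if_true]
        rw [← hn1 j hj]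
      · simp only [if_neg hji]
        rw [← hn2 i j (by omega) hj]
  · rw [map_mul, aeval_comp]
    have : aeval (aeval (α + n) (X - C (n : ℤ))) f = 0 := by
      have e1 : aeval (α + (n : ℂ)) (X - C (n : ℤ)) = α := by simp
      rw [e1, aeval_def]
      exact hroot
    rw [this, mul_zero]

end Pool.Agent.Results.MP_f55c5e_co.AlphaPlusN
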